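import Mathlib

/-! Project LM, task Sweep: the one-dimensional push maps. -/

set_option autoImplicit false

namespace Pool.Agent.H946R3.LN

/-- displacement on the line with the wall at `0`, slope `κ` -/
noncomputable def g (κ s : ℝ) : ℝ := max (-(max (1/100) |s|)) (min (max (1/100) |s|) (κ * s)) - s

theorem g_one (s : ℝ) : g 1 s = 0 := by
  unfold g
  have h1 : |s| ≤ max (1/100) |s| := le_max_right _ _
  have h2 := abs_le.mp h1
  rw [one_mul, min_eq_right h2.2, max_eq_right h2.1, sub_self]

theorem g_far {κ s : ℝ} (hκ : 1 ≤ κ) (hs : 1/100 ≤ |s|) : g κ s = 0 := by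
  unfold g
  rw [max_eq_right hs]
  rcases le_total 0 s with h | h
  · rw [abs_of_nonneg h, min_eq_left (by nlinarith), max_eq_right (by linarith), sub_self]
  · rw [abs_of_nonpos h]
    rw [min_eq_right (by nlinarith), max_eq_left (by nlinarith)]
    ring

theorem g_abs {κ s : ℝ} (hκ : 1 ≤ κ) : |g κ s| ≤ max 0 (1/100 - |s|) := by
  rcases le_total (1/100) |s| with h | h
  · rw [g_far hκ h, abs_zero]; exact le_max_left _ _
  · refine le_trans ?_ (le_max_right _ _)
    unfold g
    rw [max_eq_left h]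
    rcases le_total 0 s with h0 | h0
    · rw [abs_of_nonneg h0] at h ⊢
      have h1 : s ≤ min (1/100) (κ * s) := le_min h (by nlinarith)
      have h2 : min (1/100) (κ * s) ≤ 1/100 := min_le_left _ _
      rw [max_eq_right (by linarith), abs_of_nonneg (by linarith)]
      linarith
    · rw [abs_of_nonpos h0] at h ⊢
      have h1 : κ * s ≤ s := by nlinarith
      rw [min_eq_right (by linarith)]
      have h2 : max (-(1/100)) (κ * s) ≤ s := max_le (by linarith) h1
      have h3 : -(1/100) ≤ max (-(1/100)) (κ * s) := le_max_left _ _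
      rw [abs_of_nonpos (by linarith)]
      linarith

theorem g_lip {κ s t : ℝ} (hκ : 1 ≤ κ) : |g κ s - g κ t| ≤ (κ + 1) * |s - t| := by
  have hT : abs (max (1/100) |s| - max (1/100) |t|) ≤ κ * |s - t| := by
    have h1 := abs_max_sub_max_le_max (1/100) |s| (1/100) |t|
    rw [sub_self, abs_zero] at h1
    have h2 := abs_abs_sub_abs_le_abs_sub s t
    have h3 : max 0 (abs (|s| - |t|)) ≤ |s - t| := max_le (abs_nonneg _) h2
    nlinarith [abs_nonneg (s - t)]
  have hk : |κ * s - κ * t| ≤ κ * |s - t| := by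
    rw [← mul_sub, abs_mul, abs_of_nonneg (by linarith : (0:ℝ) ≤ κ)]
  have hm : |min (max (1/100) |s|) (κ * s) - min (max (1/100) |t|) (κ * t)| ≤ κ * |s - t| :=
    (abs_min_sub_min_le_max _ _ _ _).trans (max_le hT hk)
  have hM : |max (-(max (1/100) |s|)) (min (max (1/100) |s|) (κ * s)) -
      max (-(max (1/100) |t|)) (min (max (1/100) |t|) (κ * t))| ≤ κ * |s - t| := by
    refine (abs_max_sub_max_le_max _ _ _ _).trans (max_le ?_ hm)
    rw [neg_sub_neg, abs_sub_comm]; exact hT
  unfold g
  have e : max (-(max (1/100) |s|)) (min (max (1/100) |s|) (κ * s)) - s -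
      (max (-(max (1/100) |t|)) (min (max (1/100) |t|) (κ * t)) - t) =
      (max (-(max (1/100) |s|)) (min (max (1/100) |s|) (κ * s)) -
      max (-(max (1/100) |t|)) (min (max (1/100) |t|) (κ * t))) + -(s - t) := by ring
  rw [e]
  refine (abs_add_le _ _).trans ?_
  rw [abs_neg]
  linarith

theorem g_neg (κ s : ℝ) : g κ (-s) = - g κ s := by
  unfold g
  rw [abs_neg, mul_neg]
  have hT : 0 < max (1/100 : ℝ) |s| := lt_of_lt_of_le (by norm_num) (le_max_left _ _)
  generalize max (1/100 : ℝ) |s| = T at hT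
  generalize κ * s = a
  simp only [max_def, min_def]
  split_ifs <;> linarith

/-- dependence on the slope -/
theorem g_kap {κ κ' s e : ℝ} (hκ : 1 ≤ κ) (hκ' : 1 ≤ κ') (he : 0 ≤ e) (h1 : (1 - e) * κ ≤ κ')
    (h2 : (1 - e) * κ' ≤ κ) : |g κ s - g κ' s| ≤ 1/100 * e := by
  rcases le_total (1/100) |s| with h | h
  · rw [g_far hκ h, g_far hκ' h, sub_zero, abs_zero]; positivity
  · -- reduce to s nonneg and κ' ≤ κ
    have key : ∀ (κ κ' s : ℝ), 1 ≤ κ → 1 ≤ κ' → (1 - e) * κ ≤ κ' → κ' ≤ κ → 0 ≤ s → s ≤ 1/100 →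
        |g κ s - g κ' s| ≤ 1/100 * e := by
      intro κ κ' s hκ hκ' h1 hle hs0 hs
      unfold g
      rw [abs_of_nonneg hs0, max_eq_left hs]
      have p1 : 0 ≤ κ * s := by nlinarith
      have p2 : 0 ≤ κ' * s := by nlinarith
      have q1 : 0 ≤ min (1/100) (κ * s) := le_min (by norm_num) p1
      have q2 : 0 ≤ min (1/100) (κ' * s) := le_min (by norm_num) p2
      rw [max_eq_right (by linarith), max_eq_right (by linarith)]
      have h3 : min (1/100) (κ' * s) ≤ min (1/100) (κ * s) :=
        min_le_min le_rfl (mul_le_mul_of_nonneg_right hle hs0)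
      rw [abs_of_nonneg (by linarith)]
      have h4 : min (1/100) (κ * s) ≤ 1/100 := min_le_left _ _
      have h5 : min (1/100) (κ * s) ≤ κ * s := min_le_right _ _
      rcases le_total (1/100) (κ' * s) with h6 | h6
      · rw [min_eq_left h6]
        have : 0 ≤ 1/100 * e := by positivity
        linarith
      · rw [min_eq_right h6]
        -- min (1/100) (κ s) - κ' s ≤ e/100
        by_cases he1 : e ≤ 1
        · have h7 : (1 - e) * min (1/100) (κ * s) ≤ κ' * s := by
            calc (1 - e) * min (1/100) (κ * s) ≤ (1 - e) * (κ * s) :=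
                  mul_le_mul_of_nonneg_left h5 (by linarith)
              _ = ((1 - e) * κ) * s := by ring
              _ ≤ κ' * s := mul_le_mul_of_nonneg_right h1 hs0
          have h8 : e * min (1/100) (κ * s) ≤ e * (1/100) := mul_le_mul_of_nonneg_left h4 he
          nlinarith
        · push Not at he1
          nlinarith
    have key2 : ∀ (s : ℝ), 0 ≤ s → s ≤ 1/100 → |g κ s - g κ' s| ≤ 1/100 * e := by
      intro s hs0 hs
      rcases le_total κ' κ with h3 | h3
      · exact key κ κ' s hκ hκ' h1 h3 hs0 hs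
      · rw [abs_sub_comm]; exact key κ' κ s hκ' hκ h2 h3 hs0 hs
    rcases le_total 0 s with h0 | h0
    · exact key2 s h0 (by rwa [abs_of_nonneg h0] at h)
    · have h3 := key2 (-s) (by linarith) (by rwa [abs_of_nonpos h0] at h)
      rw [g_neg, g_neg, neg_sub_neg, abs_sub_comm] at h3
      exact h3

/-- the push: outside `1/(100 κ)` one gets outside `1/100` -/
theorem g_push {κ s : ℝ} (hκ : 1 ≤ κ) (hs : 1/100 ≤ κ * |s|) (hs2 : |s| ≤ 1/2) :
    1/100 ≤ |s + g κ s| ∧ |s + g κ s| ≤ 1/2 := by
  have key : ∀ s : ℝ, 0 ≤ s → 1/100 ≤ κ * s → s ≤ 1/2 → 1/100 ≤ |s + g κ s| ∧ |s + g κ s| ≤ 1/2 := by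
    intro s h0 hs hs2
    unfold g
    rw [abs_of_nonneg h0]
    have h1 : 1/100 ≤ min (max (1/100) s) (κ * s) := le_min (le_max_left _ _) hs
    have h2 : min (max (1/100) s) (κ * s) ≤ max (1/100) s := min_le_left _ _
    have h3 : max (1/100) s ≤ 1/2 := max_le (by norm_num) hs2
    have h4 : (0:ℝ) ≤ max (1/100) s := le_trans (by norm_num) (le_max_left _ _)
    rw [max_eq_right (by linarith)]
    have e : s + (min (max (1/100) s) (κ * s) - s) = min (max (1/100) s) (κ * s) := by ring
    rw [e, abs_of_nonneg (by linarith)]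
    exact ⟨h1, by linarith⟩
  rcases le_total 0 s with h0 | h0
  · rw [abs_of_nonneg h0] at hs hs2
    exact key s h0 hs hs2
  · rw [abs_of_nonpos h0] at hs hs2
    have h := key (-s) (by linarith) hs hs2
    rw [g_neg, show -s + -g κ s = -(s + g κ s) by ring, abs_neg] at h
    exact h

/-- periodic version -/
noncomputable def gp (κ a : ℝ) : ℝ := g κ (a - round a)

theorem gp_abs {κ a : ℝ} (hκ : 1 ≤ κ) : |gp κ a| ≤ 1/100 :=
  (g_abs hκ).trans (max_le (by norm_num) (by linarith [abs_nonneg (a - round a)]))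

theorem gp_one (a : ℝ) : gp 1 a = 0 := g_one _

theorem gp_kap {κ κ' a e : ℝ} (hκ : 1 ≤ κ) (hκ' : 1 ≤ κ') (he : 0 ≤ e) (h1 : (1 - e) * κ ≤ κ')
    (h2 : (1 - e) * κ' ≤ κ) : |gp κ a - gp κ' a| ≤ 1/100 * e := g_kap hκ hκ' he h1 h2

theorem gp_lip {κ a b : ℝ} (hκ : 1 ≤ κ) : |gp κ a - gp κ b| ≤ (κ + 1) * |a - b| := by
  by_cases h : round a = round b
  · have := g_lip (s := a - round a) (t := b - round b) hκ
    unfold gp
    rw [show a - b = (a - round a) - (b - round b) by rw [h]; ring]
    exact this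
  · -- different walls
    have key : ∀ a b : ℝ, round a < round b → |gp κ a - gp κ b| ≤ (κ + 1) * |a - b| := by
      intro a b h
      have h1 : (round a : ℝ) + 1 ≤ round b := by exact_mod_cast h
      have ha := abs_sub_round a
      have hb := abs_sub_round b
      have ga : |gp κ a| ≤ max 0 (1/100 - |a - round a|) := g_abs hκ
      have gb : |gp κ b| ≤ max 0 (1/100 - |b - round b|) := g_abs hκ
      have ga' : |gp κ a| ≤ 1/2 - |a - round a| := ga.trans (max_le (by linarith) (by linarith))
      have gb' : |gp κ b| ≤ 1/2 - |b - round b| := gb.trans (max_le (by linarith) (by linarith))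
      have h2 : b - a ≥ (1/2 - |a - round a|) + (1/2 - |b - round b|) := by
        have e1 := le_abs_self (a - round a)
        have e2 := neg_abs_le (b - round b)
        linarith
      have h3 : |gp κ a - gp κ b| ≤ |gp κ a| + |gp κ b| := abs_sub _ _
      have h4 : |a - b| = b - a := by
        rw [abs_sub_comm, abs_of_nonneg]
        have := abs_nonneg (gp κ a); have := abs_nonneg (gp κ b); linarith
      rw [h4]
      have h5 : 0 ≤ b - a := by rw [← h4]; exact abs_nonneg _
      nlinarith
    rcases lt_or_gt_of_ne h with h | h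
    · exact key a b h
    · rw [abs_sub_comm, abs_sub_comm a b]; exact key b a h

/-- far from the integers after the push -/
theorem gp_push {κ a : ℝ} (hκ : 1 ≤ κ) (hs : ∀ n : ℤ, 1/100 ≤ κ * |a - n|) (n : ℤ) :
    1/100 ≤ |a + gp κ a - n| := by
  have h1 := hs (round a)
  have h2 := abs_sub_round a
  obtain ⟨h3, h4⟩ := g_push hκ h1 h2
  have e : a + gp κ a - n = ((a - round a) + g κ (a - round a)) + ((round a : ℝ) - n) := by
    unfold gp; ring
  rw [e]
  by_cases hn : round a = n
  · rw [hn]; rw [hn] at h3; simpa using h3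
  · have h5 : (1:ℝ) ≤ |(round a : ℝ) - n| := by
      have : (1:ℤ) ≤ |round a - n| := Int.one_le_abs (sub_ne_zero.mpr hn)
      exact_mod_cast this
    have h6 := abs_sub_abs_le_abs_sub ((round a : ℝ) - n) (-((a - round a) + g κ (a - round a)))
    rw [abs_neg, sub_neg_eq_add, add_comm ((round a : ℝ) - n)] at h6
    linarith

end Pool.Agent.H946R3.LN
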