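import Mathlib
import Pool.Agent.H261R3.LH.Stmts
import Pool.Agent.H946R3.LN.SwA

/-! Project LM, task Sweep: the sweep map, Lipschitz bounds. -/

set_option autoImplicit false

open Pool.Agent.H261R3.LH (Lip1 clip clip_nonneg)

namespace Pool.Agent.H946R3.LN

noncomputable def kap (l : ℤ) (η : ℝ) : ℝ := max 1 ((2:ℝ) ^ ((l:ℝ) - 1 - η))

noncomputable def dl (l : ℤ) (η x : ℝ) : ℝ := 2 ^ l * gp (kap l η) (x / 2 ^ l - 1/6)

noncomputable def al (w : ℝ) : ℝ := clip (min (2*w+2) (3-2*w))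

noncomputable def hh (L : ℝ) : ℝ := ⌊L⌋ + max 0 (2 * Int.fract L - 1)

noncomputable def Mp {m : ℕ} (L η : ℝ) (x : Fin m → ℝ) : Fin m → ℝ :=
  fun i => x i + ∑ l ∈ Finset.Icc (⌊L⌋-1) (⌊L⌋+1), al (L - l) * dl l η (x i)

noncomputable def KK {S : Type} {m : ℕ} (F : (Fin m → ℝ) → ℝ → S) (L : ℝ) (x : Fin m → ℝ) (η : ℝ) : S :=
  F (Mp L η x) (max η (hh L))

theorem kap_one (l : ℤ) (η : ℝ) : 1 ≤ kap l η := le_max_left _ _

theorem kap_eq_one {l : ℤ} {η : ℝ} (h : (l:ℝ) - 1 ≤ η) : kap l η = 1 := by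
  unfold kap
  apply max_eq_left
  apply Real.rpow_le_one_of_one_le_of_nonpos (by norm_num) (by linarith)

theorem dl_zero {l : ℤ} {η : ℝ} (h : (l:ℝ) - 1 ≤ η) (x : ℝ) : dl l η x = 0 := by
  unfold dl
  rw [kap_eq_one h, gp_one, mul_zero]

theorem dl_abs (l : ℤ) (η x : ℝ) : |dl l η x| ≤ 2 ^ l / 100 := by
  unfold dl
  have h2 : (0:ℝ) < 2 ^ l := by positivity
  rw [abs_mul, abs_of_pos h2]
  have := gp_abs (a := x / 2 ^ l - 1/6) (kap_one l η)
  calc (2:ℝ) ^ l * |gp (kap l η) (x / 2 ^ l - 1 / 6)| ≤ 2 ^ l * (1/100) :=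
        mul_le_mul_of_nonneg_left this h2.le
    _ = 2 ^ l / 100 := by ring

theorem dl_lip (l : ℤ) (η x x' : ℝ) : |dl l η x - dl l η x'| ≤ (kap l η + 1) * |x - x'| := by
  unfold dl
  have h2 : (0:ℝ) < 2 ^ l := by positivity
  rw [← mul_sub, abs_mul, abs_of_pos h2]
  have := gp_lip (a := x / 2 ^ l - 1/6) (b := x' / 2 ^ l - 1/6) (kap_one l η)
  have e : |x / 2 ^ l - 1 / 6 - (x' / 2 ^ l - 1 / 6)| = |x - x'| / 2 ^ l := by
    rw [← abs_of_pos h2, ← abs_div]
    congr 1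
    rw [abs_of_pos h2]
    ring
  rw [e] at this
  calc (2:ℝ) ^ l * |gp (kap l η) (x / 2 ^ l - 1 / 6) - gp (kap l η) (x' / 2 ^ l - 1 / 6)|
      ≤ 2 ^ l * ((kap l η + 1) * (|x - x'| / 2 ^ l)) := mul_le_mul_of_nonneg_left this h2.le
    _ = (kap l η + 1) * |x - x'| := by field_simp

theorem kap_comp (l : ℤ) (η η' : ℝ) : (1 - |η - η'|) * kap l η ≤ kap l η' := by
  rcases le_total 1 |η - η'| with h | h
  · have h1 := kap_one l η
    have h2 := kap_one l η'
    nlinarith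
  · have h0 : 0 ≤ 1 - |η - η'| := by linarith
    unfold kap
    rw [mul_max_of_nonneg _ _ h0]
    apply max_le
    · refine le_trans ?_ (le_max_left _ _)
      linarith [abs_nonneg (η - η')]
    · refine le_trans ?_ (le_max_right _ _)
      have e : (2:ℝ) ^ ((l:ℝ) - 1 - η') = (2:ℝ) ^ (η - η') * (2:ℝ) ^ ((l:ℝ) - 1 - η) := by
        rw [← Real.rpow_add (by norm_num)]; congr 1; ring
      rw [e]
      apply mul_le_mul_of_nonneg_right _ (by positivity)
      -- 1 - |t| ≤ 2^t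
      have hl0 : 0 ≤ Real.log 2 := Real.log_nonneg (by norm_num)
      have hl1 : Real.log 2 ≤ 1 := by
        have := Real.log_le_sub_one_of_pos (show (0:ℝ) < 2 by norm_num)
        linarith
      have h1 : (2:ℝ) ^ (η - η') = Real.exp (Real.log 2 * (η - η')) := by
        rw [Real.rpow_def_of_pos (by norm_num)]
      rw [h1]
      have h2 := Real.add_one_le_exp (Real.log 2 * (η - η'))
      have h3 : -|η - η'| ≤ Real.log 2 * (η - η') := by
        have h4 : |Real.log 2 * (η - η')| ≤ |η - η'| := by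
          rw [abs_mul, abs_of_nonneg hl0]
          nlinarith [abs_nonneg (η - η')]
        linarith [neg_abs_le (Real.log 2 * (η - η'))]
      linarith

theorem dl_eta (l : ℤ) (η η' x : ℝ) : |dl l η x - dl l η' x| ≤ 2 ^ l / 100 * |η - η'| := by
  unfold dl
  have h2 : (0:ℝ) < 2 ^ l := by positivity
  rw [← mul_sub, abs_mul, abs_of_pos h2]
  have := gp_kap (a := x / 2 ^ l - 1/6) (kap_one l η) (kap_one l η') (abs_nonneg (η - η'))
    (kap_comp l η η') (by rw [abs_sub_comm]; exact kap_comp l η' η)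
  calc _ ≤ (2:ℝ) ^ l * (1/100 * |η - η'|) := mul_le_mul_of_nonneg_left this h2.le
    _ = _ := by ring

theorem clip_le_one (x : ℝ) : clip x ≤ 1 := by
  unfold clip
  exact max_le (by norm_num) (min_le_left _ _)

theorem clip_lip (x y : ℝ) : |clip x - clip y| ≤ |x - y| := by
  unfold clip
  have h1 := abs_max_sub_max_le_max 0 (min 1 x) 0 (min 1 y)
  have h2 := abs_min_sub_min_le_max 1 x 1 y
  rw [sub_self, abs_zero] at h1 h2
  have h3 : max 0 |x - y| = |x - y| := max_eq_right (abs_nonneg _)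
  rw [h3] at h2
  refine h1.trans (max_le (abs_nonneg _) h2)

theorem al_nonneg (w : ℝ) : 0 ≤ al w := clip_nonneg _
theorem al_le_one (w : ℝ) : al w ≤ 1 := clip_le_one _

theorem al_lip (w w' : ℝ) : |al w - al w'| ≤ 2 * |w - w'| := by
  unfold al
  refine (clip_lip _ _).trans ((abs_min_sub_min_le_max _ _ _ _).trans (max_le ?_ ?_))
  · rw [show 2 * w + 2 - (2 * w' + 2) = 2 * (w - w') by ring, abs_mul, abs_of_pos (by norm_num : (0:ℝ) < 2)]
  · rw [show 3 - 2 * w - (3 - 2 * w') = 2 * (w' - w) by ring, abs_mul,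
      abs_of_pos (by norm_num : (0:ℝ) < 2), abs_sub_comm]

theorem al_zero {w : ℝ} (h : w ≤ -1 ∨ 3/2 ≤ w) : al w = 0 := by
  unfold al clip
  have : min (2*w+2) (3-2*w) ≤ 0 := by
    rcases h with h | h
    · exact (min_le_left _ _).trans (by linarith)
    · exact (min_le_right _ _).trans (by linarith)
  rw [min_eq_right (by linarith), max_eq_left this]

theorem al_one {w : ℝ} (h1 : -(1/2) ≤ w) (h2 : w ≤ 1) : al w = 1 := by
  unfold al clip
  have : 1 ≤ min (2*w+2) (3-2*w) := le_min (by linarith) (by linarith)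
  rw [min_eq_left this, max_eq_right (by norm_num)]

/-- window `j - 1, j, j + 1` -/
theorem Mp_eq {m : ℕ} {L η : ℝ} {j : ℤ} (h1 : (j:ℝ) ≤ L) (h2 : L ≤ j + 1) (x : Fin m → ℝ) (i : Fin m) :
    Mp L η x i = x i + (al (L - (j-1)) * dl (j-1) η (x i) + al (L - j) * dl j η (x i) +
      al (L - (j+1)) * dl (j+1) η (x i)) := by
  have hsum : ∀ k : ℤ, ∀ f : ℤ → ℝ, ∑ l ∈ Finset.Icc (k-1) (k+1), f l = f (k-1) + f k + f (k+1) := by
    intro k f
    have : Finset.Icc (k-1) (k+1) = {k-1, k, k+1} := by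
      ext t; simp only [Finset.mem_Icc, Finset.mem_insert, Finset.mem_singleton]; omega
    rw [this, Finset.sum_insert (by simp only [Finset.mem_insert, Finset.mem_singleton]; omega),
      Finset.sum_insert (by simp only [Finset.mem_singleton]; omega), Finset.sum_singleton]
    ring
  unfold Mp
  rcases h2.lt_or_eq with h2 | h2
  · have hf : ⌊L⌋ = j := Int.floor_eq_iff.mpr ⟨h1, h2⟩
    rw [hf, hsum]
    push_cast
    ring
  · have hf : ⌊L⌋ = j + 1 := by
      rw [h2]; exact_mod_cast Int.floor_intCast (j+1)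
    rw [hf, hsum, h2]
    have e1 : al ((j:ℝ) + 1 - ((j + 1 + 1 : ℤ) : ℝ)) = 0 := by
      apply al_zero; left; push_cast; linarith
    have e2 : al ((j:ℝ) + 1 - (j - 1)) = 0 := by
      apply al_zero; right; linarith
    have e3 : (j + 1 - 1 : ℤ) = j := by ring
    rw [e1, e2, e3]
    push_cast
    ring

theorem hh_eq {L : ℝ} {j : ℤ} (h1 : (j:ℝ) ≤ L) (h2 : L ≤ j + 1) : hh L = j + max 0 (2 * (L - j) - 1) := by
  unfold hh
  rcases h2.lt_or_eq with h2 | h2
  · have hf : ⌊L⌋ = j := Int.floor_eq_iff.mpr ⟨h1, h2⟩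
    rw [Int.fract, hf]
  · have hf : ⌊L⌋ = j + 1 := by
      rw [h2]; exact_mod_cast Int.floor_intCast (j+1)
    rw [Int.fract, hf, h2]
    push_cast
    norm_num

/-- Mp is the identity at heights at least `j` -/
theorem Mp_id {m : ℕ} {L η : ℝ} {j : ℤ} (h1 : (j:ℝ) ≤ L) (h2 : L ≤ j + 1) (hη : (j:ℝ) ≤ η)
    (x : Fin m → ℝ) : Mp L η x = x := by
  funext i
  rw [Mp_eq h1 h2, dl_zero (l := j-1) (by push_cast; linarith), dl_zero (l := j) (by linarith),
    dl_zero (l := j+1) (by push_cast; linarith)]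
  ring

theorem hh_le {L : ℝ} : hh L ≤ L := by
  have h1 := Int.floor_le L
  have h2 := (Int.lt_floor_add_one L).le
  rw [hh_eq h1 h2]
  have : max 0 (2 * (L - ⌊L⌋) - 1) ≤ L - ⌊L⌋ := max_le (by linarith) (by linarith)
  linarith

theorem hh_ge {L : ℝ} {j : ℤ} (h1 : (j:ℝ) ≤ L) (h2 : L ≤ j + 1) : (j:ℝ) ≤ hh L := by
  rw [hh_eq h1 h2]; linarith [le_max_left 0 (2 * (L - j) - 1)]

section
variable {S : Type} [MetricSpace S]

/-- constant below -/
theorem KK_eq {m : ℕ} (F : (Fin m → ℝ) → ℝ → S) {L η : ℝ} (h : L ≤ η) (x : Fin m → ℝ) :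
    KK F L x η = F x η := by
  unfold KK
  have h1 := Int.floor_le L
  have h2 := (Int.lt_floor_add_one L).le
  rw [Mp_id h1 h2 (h1.trans h), max_eq_left (hh_le.trans h)]

theorem Mp_lip {m : ℕ} {L η : ℝ} {j : ℤ} (h1 : (j:ℝ) ≤ L) (h2 : L ≤ j + 1) (x x' : Fin m → ℝ) :
    dist (Mp L η x) (Mp L η x') ≤ (4 + 3 * kap (j+1) η) * dist x x' := by
  have hk0 : 0 ≤ kap (j+1) η := le_trans zero_le_one (kap_one _ _)
  rw [dist_pi_le_iff (by positivity)]
  intro i
  have hd : |x i - x' i| ≤ dist x x' := by rw [← Real.dist_eq]; exact dist_le_pi_dist x x' i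
  have hd0 : 0 ≤ |x i - x' i| := abs_nonneg _
  rw [Real.dist_eq, Mp_eq h1 h2, Mp_eq h1 h2]
  have hmono : ∀ l : ℤ, l ≤ j + 1 → kap l η ≤ kap (j+1) η := by
    intro l hl
    unfold kap
    apply max_le_max le_rfl
    apply Real.rpow_le_rpow_of_exponent_le (by norm_num)
    have : (l:ℝ) ≤ ((j+1 : ℤ) : ℝ) := by exact_mod_cast hl
    linarith
  have hterm : ∀ l : ℤ, l ≤ j + 1 → ∀ w : ℝ, |al w * dl l η (x i) - al w * dl l η (x' i)| ≤
      (kap (j+1) η + 1) * |x i - x' i| := by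
    intro l hl w
    rw [← mul_sub, abs_mul, abs_of_nonneg (al_nonneg w)]
    have e1 := dl_lip l η (x i) (x' i)
    have e2 := hmono l hl
    have e3 := al_le_one w
    have e4 := al_nonneg w
    have e5 : |dl l η (x i) - dl l η (x' i)| ≤ (kap (j+1) η + 1) * |x i - x' i| :=
      e1.trans (mul_le_mul_of_nonneg_right (by linarith) hd0)
    have e6 := abs_nonneg (dl l η (x i) - dl l η (x' i))
    nlinarith
  have t1 := hterm (j-1) (by omega) (L - (j-1))
  have t2 := hterm j (by omega) (L - j)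
  have t3 := hterm (j+1) le_rfl (L - (j+1))
  have e : x i + (al (L - (j-1)) * dl (j-1) η (x i) + al (L - j) * dl j η (x i) +
      al (L - (j+1)) * dl (j+1) η (x i)) - (x' i + (al (L - (j-1)) * dl (j-1) η (x' i) +
      al (L - j) * dl j η (x' i) + al (L - (j+1)) * dl (j+1) η (x' i))) =
      (x i - x' i) + (al (L - (j-1)) * dl (j-1) η (x i) - al (L - (j-1)) * dl (j-1) η (x' i)) +
      (al (L - j) * dl j η (x i) - al (L - j) * dl j η (x' i)) +
      (al (L - (j+1)) * dl (j+1) η (x i) - al (L - (j+1)) * dl (j+1) η (x' i)) := by ring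
  rw [e]
  have s1 := abs_add_le ((x i - x' i) + (al (L - (j-1)) * dl (j-1) η (x i) - al (L - (j-1)) * dl (j-1) η (x' i)) +
      (al (L - j) * dl j η (x i) - al (L - j) * dl j η (x' i)))
      (al (L - (j+1)) * dl (j+1) η (x i) - al (L - (j+1)) * dl (j+1) η (x' i))
  have s2 := abs_add_le ((x i - x' i) + (al (L - (j-1)) * dl (j-1) η (x i) - al (L - (j-1)) * dl (j-1) η (x' i)))
      (al (L - j) * dl j η (x i) - al (L - j) * dl j η (x' i))
  have s3 := abs_add_le (x i - x' i) (al (L - (j-1)) * dl (j-1) η (x i) - al (L - (j-1)) * dl (j-1) η (x' i))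
  nlinarith

/-- difference of two displacement vectors, general bound -/
theorem Mp_diff {m : ℕ} {L L' η η' : ℝ} {j : ℤ} (h1 : (j:ℝ) ≤ L) (h2 : L ≤ j + 1) (h1' : (j:ℝ) ≤ L')
    (h2' : L' ≤ j + 1) (x : Fin m → ℝ) :
    dist (Mp L η x) (Mp L' η' x) ≤ 2 ^ j * (|η - η'| + |L - L'|) := by
  have hj : (0:ℝ) < 2 ^ j := by positivity
  rw [dist_pi_le_iff (by positivity)]
  intro i
  rw [Real.dist_eq, Mp_eq h1 h2, Mp_eq h1' h2']
  have hp : ∀ l : ℤ, l ≤ j + 1 → (2:ℝ) ^ l ≤ 2 * 2 ^ j := by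
    intro l hl
    calc (2:ℝ) ^ l ≤ 2 ^ (j+1) := zpow_le_zpow_right₀ (by norm_num) hl
      _ = 2 * 2 ^ j := by rw [zpow_add₀ (by norm_num), zpow_one]; ring
  have hterm : ∀ l : ℤ, l ≤ j + 1 → ∀ w : ℝ, |al (L - w) * dl l η (x i) - al (L' - w) * dl l η' (x i)| ≤
      2 ^ j * (|η - η'| + |L - L'|) / 3 := by
    intro l hl w
    have e : al (L - w) * dl l η (x i) - al (L' - w) * dl l η' (x i) =
        al (L - w) * (dl l η (x i) - dl l η' (x i)) + (al (L - w) - al (L' - w)) * dl l η' (x i) := by ring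
    rw [e]
    refine (abs_add_le _ _).trans ?_
    rw [abs_mul, abs_mul, abs_of_nonneg (al_nonneg _)]
    have e1 := dl_eta l η η' (x i)
    have e2 := dl_abs l η' (x i)
    have e3 := al_lip (L - w) (L' - w)
    rw [show L - w - (L' - w) = L - L' by ring] at e3
    have e4 := hp l hl
    have e5 : |dl l η (x i) - dl l η' (x i)| ≤ 2 * 2 ^ j / 100 * |η - η'| :=
      e1.trans (mul_le_mul_of_nonneg_right (by linarith) (abs_nonneg _))
    have e6 : al (L - w) * |dl l η (x i) - dl l η' (x i)| ≤ 2 * 2 ^ j / 100 * |η - η'| := by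
      have a1 := al_nonneg (L - w)
      have a2 := al_le_one (L - w)
      have a3 := abs_nonneg (dl l η (x i) - dl l η' (x i))
      nlinarith
    have e7 : |al (L - w) - al (L' - w)| * |dl l η' (x i)| ≤ (2 * |L - L'|) * (2 * 2 ^ j / 100) :=
      mul_le_mul e3 (e2.trans (by linarith)) (abs_nonneg _) (by positivity)
    have a1 := abs_nonneg (η - η')
    have a2 := abs_nonneg (L - L')
    have a3 : 0 ≤ 2 ^ j * |η - η'| := by positivity
    have a4 : 0 ≤ 2 ^ j * |L - L'| := by positivity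
    calc _ ≤ 2 * 2 ^ j / 100 * |η - η'| + (2 * |L - L'|) * (2 * 2 ^ j / 100) := add_le_add e6 e7
      _ ≤ 2 ^ j * (|η - η'| + |L - L'|) / 3 := by nlinarith
  have t1 := hterm (j-1) (by omega) (j-1)
  have t2 := hterm j (by omega) j
  have t3 := hterm (j+1) le_rfl (j+1)
  have e : x i + (al (L - (j-1)) * dl (j-1) η (x i) + al (L - j) * dl j η (x i) +
      al (L - (j+1)) * dl (j+1) η (x i)) - (x i + (al (L' - (j-1)) * dl (j-1) η' (x i) +
      al (L' - j) * dl j η' (x i) + al (L' - (j+1)) * dl (j+1) η' (x i))) =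
      (al (L - (j-1)) * dl (j-1) η (x i) - al (L' - (j-1)) * dl (j-1) η' (x i)) +
      (al (L - j) * dl j η (x i) - al (L' - j) * dl j η' (x i)) +
      (al (L - (j+1)) * dl (j+1) η (x i) - al (L' - (j+1)) * dl (j+1) η' (x i)) := by ring
  rw [e]
  have s1 := abs_add_le ((al (L - (j-1)) * dl (j-1) η (x i) - al (L' - (j-1)) * dl (j-1) η' (x i)) +
      (al (L - j) * dl j η (x i) - al (L' - j) * dl j η' (x i)))
      (al (L - (j+1)) * dl (j+1) η (x i) - al (L' - (j+1)) * dl (j+1) η' (x i))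
  have s2 := abs_add_le (al (L - (j-1)) * dl (j-1) η (x i) - al (L' - (j-1)) * dl (j-1) η' (x i))
      (al (L - j) * dl j η (x i) - al (L' - j) * dl j η' (x i))
  linarith

end

end Pool.Agent.H946R3.LN
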