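import Mathlib
import Pool.Agent.H261R3.LN.SStmts
import Pool.Agent.H946R3.LN.SwB

/-! Project LM, task Sweep: Lipschitz properties of the sweep. -/

set_option autoImplicit false

open Pool.Agent.H261R3.LH (Lip1 clip clip_nonneg)
open Pool.Agent.H261R3.LN (HL Supp Far)

namespace Pool.Agent.H946R3.LN

/-- local to global -/
theorem lip_of_int {S : Type} [MetricSpace S] {C : ℝ} (f : ℝ → S)
    (h : ∀ (j : ℤ) (x y : ℝ), (j:ℝ) ≤ x → x ≤ j + 1 → (j:ℝ) ≤ y → y ≤ j + 1 →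
      dist (f x) (f y) ≤ C * |x - y|) : Lip1 C f := by
  have key : ∀ (n : ℕ) (x y : ℝ), x ≤ y → y ≤ ⌊x⌋ + 1 + n → dist (f x) (f y) ≤ C * (y - x) := by
    intro n
    induction n with
    | zero =>
      intro x y hxy hy
      have h1 := h ⌊x⌋ x y (Int.floor_le x) (Int.lt_floor_add_one x).le ((Int.floor_le x).trans hxy)
        (by simpa using hy)
      rwa [abs_sub_comm, abs_of_nonneg (by linarith)] at h1
    | succ n ih =>
      intro x y hxy hy
      by_cases hy2 : y ≤ ⌊x⌋ + 1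
      · exact ih x y hxy (by push_cast; linarith [(Nat.cast_nonneg n : (0:ℝ) ≤ n)])
      · push Not at hy2
        have h1 := h ⌊x⌋ x (⌊x⌋ + 1) (Int.floor_le x) (Int.lt_floor_add_one x).le (by linarith) le_rfl
        rw [abs_sub_comm, abs_of_nonneg (by linarith [Int.lt_floor_add_one x])] at h1
        have hfl : ⌊((⌊x⌋:ℝ) + 1)⌋ = ⌊x⌋ + 1 := by exact_mod_cast Int.floor_intCast (⌊x⌋ + 1)
        have h2 := ih (⌊x⌋ + 1) y hy2.le (by rw [hfl]; push_cast at hy ⊢; linarith)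
        have h3 := dist_triangle (f x) (f (⌊x⌋ + 1)) (f y)
        have h4 : C * (((⌊x⌋:ℝ) + 1) - x) + C * (y - (⌊x⌋ + 1)) = C * (y - x) := by ring
        linarith
  have key2 : ∀ x y : ℝ, x ≤ y → dist (f x) (f y) ≤ C * (y - x) := by
    intro x y hxy
    obtain ⟨n, hn⟩ := exists_nat_ge (y - (⌊x⌋ + 1))
    exact key n x y hxy (by linarith)
  intro x y
  rcases le_total x y with hxy | hxy
  · rw [abs_sub_comm, abs_of_nonneg (by linarith)]; exact key2 x y hxy
  · rw [dist_comm, abs_of_nonneg (by linarith)]; exact key2 y x hxy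

section
variable {S : Type} [MetricSpace S] {m : ℕ}

theorem rpow_int (j : ℤ) : (2:ℝ) ^ (-(j:ℝ)) * 2 ^ j = 1 := by
  rw [← Real.rpow_intCast, ← Real.rpow_add (by norm_num)]
  simp

theorem hh_lip {L L' : ℝ} {j : ℤ} (h1 : (j:ℝ) ≤ L) (h2 : L ≤ j + 1) (h1' : (j:ℝ) ≤ L')
    (h2' : L' ≤ j + 1) : |hh L - hh L'| ≤ 2 * |L - L'| := by
  rw [hh_eq h1 h2, hh_eq h1' h2']
  have e : (j:ℝ) + max 0 (2 * (L - j) - 1) - (j + max 0 (2 * (L' - j) - 1)) =
      max 0 (2 * (L - j) - 1) - max 0 (2 * (L' - j) - 1) := by ring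
  rw [e]
  refine (abs_max_sub_max_le_max _ _ _ _).trans (max_le ?_ ?_)
  · rw [sub_self, abs_zero]; positivity
  · rw [show 2 * (L - (j:ℝ)) - 1 - (2 * (L' - j) - 1) = 2 * (L - L') by ring, abs_mul,
      abs_of_pos (by norm_num : (0:ℝ) < 2)]

theorem max_lip (a b c : ℝ) : |max c a - max c b| ≤ |a - b| := by
  refine (abs_max_sub_max_le_max _ _ _ _).trans (max_le ?_ le_rfl)
  rw [sub_self, abs_zero]; exact abs_nonneg _

theorem max_lip' (a b c : ℝ) : |max a c - max b c| ≤ |a - b| := by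
  rw [max_comm a, max_comm b]; exact max_lip a b c

/-- two points of the sweep with the window `j` -/
theorem KK_dist {C : ℝ} (hC : 0 ≤ C) {F : (Fin m → ℝ) → ℝ → S} (hF : HL C F) {L L' η η' : ℝ} {j : ℤ}
    (h1 : (j:ℝ) ≤ L) (h2 : L ≤ j + 1) (h1' : (j:ℝ) ≤ L') (h2' : L' ≤ j + 1) (x : Fin m → ℝ) :
    dist (KK F L x η) (KK F L' x η') ≤ C * (2 * |η - η'| + 3 * |L - L'|) := by
  unfold KK
  have d1 := hF.2 (Mp L η x) (max η (hh L)) (max η' (hh L'))
  have d2 := hF.1 (max η' (hh L')) (Mp L η x) (Mp L' η' x)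
  have d3 := dist_triangle (F (Mp L η x) (max η (hh L))) (F (Mp L η x) (max η' (hh L')))
    (F (Mp L' η' x) (max η' (hh L')))
  have d4 := Mp_diff (η := η) (η' := η') h1 h2 h1' h2' x
  have d5 : |max η (hh L) - max η' (hh L')| ≤ |η - η'| + 2 * |L - L'| := by
    have a1 := max_lip' η η' (hh L)
    have a2 := max_lip (hh L) (hh L') η'
    have a3 := hh_lip h1 h2 h1' h2'
    have e : max η (hh L) - max η' (hh L') =
      (max η (hh L) - max η' (hh L)) + (max η' (hh L) - max η' (hh L')) := by ring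
    rw [e]
    have := abs_add_le (max η (hh L) - max η' (hh L)) (max η' (hh L) - max η' (hh L'))
    linarith
  have d6 : (2:ℝ) ^ (-(max η' (hh L'))) ≤ (2:ℝ) ^ (-(j:ℝ)) := by
    apply Real.rpow_le_rpow_of_exponent_le (by norm_num)
    have := hh_ge h1' h2'
    have := le_max_right η' (hh L')
    linarith
  have d7 : C * (2:ℝ) ^ (-(max η' (hh L'))) * dist (Mp L η x) (Mp L' η' x) ≤
      C * (|η - η'| + |L - L'|) := by
    calc C * (2:ℝ) ^ (-(max η' (hh L'))) * dist (Mp L η x) (Mp L' η' x)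
        ≤ C * (2:ℝ) ^ (-(j:ℝ)) * (2 ^ j * (|η - η'| + |L - L'|)) := by
          apply mul_le_mul _ d4 dist_nonneg (by positivity)
          exact mul_le_mul_of_nonneg_left d6 hC
      _ = C * ((2:ℝ) ^ (-(j:ℝ)) * 2 ^ j) * (|η - η'| + |L - L'|) := by ring
      _ = _ := by rw [rpow_int]; ring
  have d8 : C * |max η (hh L) - max η' (hh L')| ≤ C * (|η - η'| + 2 * |L - L'|) :=
    mul_le_mul_of_nonneg_left d5 hC
  have d9 : dist (F (Mp L η x) (max η (hh L))) (F (Mp L η x) (max η' (hh L'))) ≤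
      C * |max η (hh L) - max η' (hh L')| := d1
  nlinarith

theorem KK_HL {C : ℝ} (hC : 0 ≤ C) {F : (Fin m → ℝ) → ℝ → S} (hF : HL C F) (L : ℝ) :
    HL (7 * C) (KK F L) := by
  have h1 := Int.floor_le L
  have h2 := (Int.lt_floor_add_one L).le
  set j := ⌊L⌋ with hj
  constructor
  · intro η x x'
    unfold KK
    refine (hF.1 _ _ _).trans ?_
    have d1 := Mp_lip (η := η) h1 h2 x x'
    have hd0 : 0 ≤ dist x x' := dist_nonneg
    have e0 : (2:ℝ) ^ (-(max η (hh L))) ≤ (2:ℝ) ^ (-η) := by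
      apply Real.rpow_le_rpow_of_exponent_le (by norm_num)
      linarith [le_max_left η (hh L)]
    have e1 : (2:ℝ) ^ (-(max η (hh L))) ≤ (2:ℝ) ^ (-(j:ℝ)) := by
      apply Real.rpow_le_rpow_of_exponent_le (by norm_num)
      have := hh_ge h1 h2
      have := le_max_right η (hh L)
      linarith
    have e2 : (2:ℝ) ^ (-(max η (hh L))) * kap (j+1) η ≤ (2:ℝ) ^ (-η) := by
      unfold kap
      rw [mul_max_of_nonneg _ _ (by positivity)]
      apply max_le
      · rw [mul_one]; exact e0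
      · calc (2:ℝ) ^ (-(max η (hh L))) * (2:ℝ) ^ (((j+1 : ℤ):ℝ) - 1 - η)
            ≤ (2:ℝ) ^ (-(j:ℝ)) * (2:ℝ) ^ (((j+1 : ℤ):ℝ) - 1 - η) :=
              mul_le_mul_of_nonneg_right e1 (by positivity)
          _ = (2:ℝ) ^ (-η) := by
              rw [← Real.rpow_add (by norm_num)]; congr 1; push_cast; ring
    have p0 : 0 < (2:ℝ) ^ (-(max η (hh L))) := by positivity
    calc C * (2:ℝ) ^ (-(max η (hh L))) * dist (Mp L η x) (Mp L η x')
        ≤ C * (2:ℝ) ^ (-(max η (hh L))) * ((4 + 3 * kap (j+1) η) * dist x x') :=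
          mul_le_mul_of_nonneg_left d1 (by positivity)
      _ = C * (4 * (2:ℝ) ^ (-(max η (hh L))) + 3 * ((2:ℝ) ^ (-(max η (hh L))) * kap (j+1) η)) *
          dist x x' := by ring
      _ ≤ C * (4 * (2:ℝ) ^ (-η) + 3 * (2:ℝ) ^ (-η)) * dist x x' := by
          apply mul_le_mul_of_nonneg_right _ hd0
          apply mul_le_mul_of_nonneg_left _ hC
          linarith
      _ = 7 * C * (2:ℝ) ^ (-η) * dist x x' := by ring
  · intro x η η'
    have := KK_dist hC hF (η := η) (η' := η') h1 h2 h1 h2 x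
    rw [sub_self, abs_zero] at this
    refine this.trans ?_
    have : 0 ≤ C * |η - η'| := by positivity
    nlinarith

theorem KK_Lip {C : ℝ} (hC : 0 ≤ C) {F : (Fin m → ℝ) → ℝ → S} (hF : HL C F) (x : Fin m → ℝ) (η : ℝ) :
    Lip1 (3 * C) (fun L => KK F L x η) := by
  apply lip_of_int
  intro j L L' h1 h2 h1' h2'
  have := KK_dist hC hF (η := η) (η' := η) h1 h2 h1' h2' x
  rw [sub_self, abs_zero] at this
  refine this.trans (le_of_eq ?_)
  ring

end

end Pool.Agent.H946R3.LN
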