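import Mathlib
import Pool.Agent.H261R3.LN.SStmts
import Pool.Agent.H946R3.LN.SwB

/-! Project LM, task Sweep: where the sweep takes the value `p`. -/

set_option autoImplicit false

open Pool.Agent.H261R3.LH (Lip1 clip clip_nonneg)
open Pool.Agent.H261R3.LN (HL Supp Far)

namespace Pool.Agent.H946R3.LN

def fr (l : ℤ) (t : ℝ) : Prop := ∀ n : ℤ, (2:ℝ) ^ l / 100 ≤ |t - 2 ^ l * (n + 1/6)|
def nr (l : ℤ) (t : ℝ) : Prop := ∃ n : ℤ, |t - 2 ^ l * (n + 1/6)| ≤ (2:ℝ) ^ l / 100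

theorem int_sixth (k : ℤ) : (1:ℝ)/6 ≤ |(k:ℝ) - 1/6| := by
  rcases le_or_gt k 0 with h | h
  · have : (k:ℝ) ≤ 0 := by exact_mod_cast h
    rw [abs_of_nonpos (by linarith)]; linarith
  · have : (1:ℝ) ≤ k := by exact_mod_cast h
    rw [abs_of_nonneg (by linarith)]; linarith

theorem int_half (k : ℤ) : (1:ℝ)/2 ≤ |(k:ℝ) - 1/2| := by
  rcases le_or_gt k 0 with h | h
  · have : (k:ℝ) ≤ 0 := by exact_mod_cast h
    rw [abs_of_nonpos (by linarith)]; linarith
  · have : (1:ℝ) ≤ k := by exact_mod_cast h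
    rw [abs_of_nonneg (by linarith)]; linarith

theorem wsep (l n n' : ℤ) : (2:ℝ) ^ l / 6 ≤ |(2:ℝ) ^ l * (n + 1/6) - 2 ^ (l+1) * (n' + 1/6)| := by
  have h2 : (0:ℝ) < 2 ^ l := by positivity
  have e : (2:ℝ) ^ l * (n + 1/6) - 2 ^ (l+1) * (n' + 1/6) = 2 ^ l * (((n - 2 * n' : ℤ) : ℝ) - 1/6) := by
    rw [zpow_add₀ (by norm_num), zpow_one]; push_cast; ring
  rw [e, abs_mul, abs_of_pos h2]
  have := int_sixth (n - 2 * n')
  calc (2:ℝ) ^ l / 6 = 2 ^ l * (1/6) := by ring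
    _ ≤ _ := mul_le_mul_of_nonneg_left this h2.le

theorem wsep2 (l n n' : ℤ) : (2:ℝ) ^ l / 2 ≤ |(2:ℝ) ^ l * (n + 1/6) - 2 ^ (l+2) * (n' + 1/6)| := by
  have h2 : (0:ℝ) < 2 ^ l := by positivity
  have e : (2:ℝ) ^ l * (n + 1/6) - 2 ^ (l+2) * (n' + 1/6) = 2 ^ l * (((n - 4 * n' : ℤ) : ℝ) - 1/2) := by
    rw [zpow_add₀ (by norm_num)]; push_cast; norm_num; ring
  rw [e, abs_mul, abs_of_pos h2]
  have := int_half (n - 4 * n')
  calc (2:ℝ) ^ l / 2 = 2 ^ l * (1/2) := by ring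
    _ ≤ _ := mul_le_mul_of_nonneg_left this h2.le

theorem sep1 {l : ℤ} {t : ℝ} (h : nr l t) : fr (l+1) t := by
  obtain ⟨n, hn⟩ := h
  intro n'
  have h1 := wsep l n n'
  have h2 : (0:ℝ) < 2 ^ l := by positivity
  have h3 := abs_sub_le ((2:ℝ) ^ l * (n + 1/6)) t (2 ^ (l+1) * (n' + 1/6))
  rw [abs_sub_comm ((2:ℝ) ^ l * (n + 1/6)) t] at h3
  have e : (2:ℝ) ^ (l+1) = 2 * 2 ^ l := by rw [zpow_add₀ (by norm_num), zpow_one]; ring
  have : (2:ℝ) ^ (l+1) / 100 = 2 * 2 ^ l / 100 := by rw [e]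
  rw [this]
  linarith

theorem sep2 {l : ℤ} {t : ℝ} (h : nr (l+1) t) : fr l t := by
  obtain ⟨n', hn⟩ := h
  intro n
  have h1 := wsep l n n'
  have h2 : (0:ℝ) < 2 ^ l := by positivity
  have h3 := abs_sub_le ((2:ℝ) ^ l * (n + 1/6)) t (2 ^ (l+1) * (n' + 1/6))
  rw [abs_sub_comm ((2:ℝ) ^ l * (n + 1/6)) t] at h3
  have e : (2:ℝ) ^ (l+1) = 2 * 2 ^ l := by rw [zpow_add₀ (by norm_num), zpow_one]; ring
  have e2 : (2:ℝ) ^ (l+1) / 100 = 2 * 2 ^ l / 100 := by rw [e]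
  rw [e2] at hn
  linarith

theorem sep3 {l : ℤ} {t : ℝ} (h : nr l t) : fr (l+2) t := by
  obtain ⟨n, hn⟩ := h
  intro n'
  have h1 := wsep2 l n n'
  have h2 : (0:ℝ) < 2 ^ l := by positivity
  have h3 := abs_sub_le ((2:ℝ) ^ l * (n + 1/6)) t (2 ^ (l+2) * (n' + 1/6))
  rw [abs_sub_comm ((2:ℝ) ^ l * (n + 1/6)) t] at h3
  have e : (2:ℝ) ^ (l+2) = 4 * 2 ^ l := by
    rw [zpow_add₀ (by norm_num)]; norm_num; ring
  have : (2:ℝ) ^ (l+2) / 100 = 4 * 2 ^ l / 100 := by rw [e]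
  rw [this]
  linarith

theorem scale (l : ℤ) (t c : ℝ) (n : ℤ) :
    |t + 2 ^ l * c - 2 ^ l * (n + 1/6)| = 2 ^ l * |(t / 2 ^ l - 1/6) + c - n| := by
  have h2 : (0:ℝ) < 2 ^ l := by positivity
  have : t + 2 ^ l * c - 2 ^ l * (n + 1/6) = 2 ^ l * ((t / 2 ^ l - 1/6) + c - n) := by
    field_simp; ring
  rw [this, abs_mul, abs_of_pos h2]

theorem dl_fr {l : ℤ} {η t : ℝ} (h : fr l t) : dl l η t = 0 := by
  have h2 : (0:ℝ) < 2 ^ l := by positivity
  have h1 := h (round (t / 2 ^ l - 1/6))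
  have e := scale l t 0 (round (t / 2 ^ l - 1/6))
  rw [mul_zero, add_zero, add_zero] at e
  rw [e] at h1
  have h3 : 1/100 ≤ |t / 2 ^ l - 1/6 - round (t / 2 ^ l - 1/6)| := by
    by_contra hc
    push Not at hc
    have := mul_lt_mul_of_pos_left hc h2
    linarith
  unfold dl gp
  rw [g_far (kap_one l η) h3, mul_zero]

theorem dl_ne {l : ℤ} {η t a : ℝ} (h : dl l η t ≠ 0) (ha : 0 ≤ a) (ha' : a ≤ 1) :
    nr l (t + a * dl l η t) := by
  have h2 : (0:ℝ) < 2 ^ l := by positivity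
  set b := t / 2 ^ l - 1/6 with hb
  set s := b - round b with hs
  have h3 : |s| ≤ 1/100 := by
    by_contra hc
    push Not at hc
    apply h
    unfold dl gp
    rw [← hb, ← hs, g_far (kap_one l η) hc.le, mul_zero]
  have h4 : |g (kap l η) s| ≤ 1/100 - |s| := (g_abs (kap_one l η)).trans (max_le (by linarith) le_rfl)
  refine ⟨round b, ?_⟩
  have e : t + a * dl l η t = t + 2 ^ l * (a * g (kap l η) s) := by
    unfold dl gp; rw [← hb, ← hs]; ring
  rw [e, scale, ← hb]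
  have e2 : b + a * g (kap l η) s - round b = s + a * g (kap l η) s := by rw [hs]; ring
  rw [e2]
  have h5 : |s + a * g (kap l η) s| ≤ 1/100 := by
    refine (abs_add_le _ _).trans ?_
    rw [abs_mul, abs_of_nonneg ha]
    have := abs_nonneg (g (kap l η) s)
    nlinarith
  calc (2:ℝ) ^ l * |s + a * g (kap l η) s| ≤ 2 ^ l * (1/100) := mul_le_mul_of_nonneg_left h5 h2.le
    _ = _ := by ring

theorem dl_ne' {l : ℤ} {η t : ℝ} (h : dl l η t ≠ 0) : nr l t := by
  have := dl_ne h le_rfl zero_le_one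
  rwa [zero_mul, add_zero] at this

/-- the hypothesis at level `l` -/
def ok (l : ℤ) (η t : ℝ) : Prop := ∀ n : ℤ, (2:ℝ) ^ l / 100 ≤ kap l η * |t - 2 ^ l * (n + 1/6)|

theorem push {l : ℤ} {η t : ℝ} (h : ok l η t) : fr l (t + dl l η t) := by
  have h2 : (0:ℝ) < 2 ^ l := by positivity
  intro n
  unfold dl
  rw [scale]
  have h1 : ∀ n : ℤ, 1/100 ≤ kap l η * |t / 2 ^ l - 1/6 - n| := by
    intro n
    have h3 := h n
    have e := scale l t 0 n
    rw [mul_zero, add_zero, add_zero] at e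
    rw [e] at h3
    by_contra hc
    push Not at hc
    have := mul_lt_mul_of_pos_left hc h2
    linarith
  have h3 := gp_push (kap_one l η) h1 n
  calc (2:ℝ) ^ l / 100 = 2 ^ l * (1/100) := by ring
    _ ≤ _ := mul_le_mul_of_nonneg_left h3 h2.le

theorem case1 {j : ℤ} {η t a b : ℝ} (ha : 0 ≤ a) (ha' : a ≤ 1) (hb : 0 ≤ b) (hb' : b ≤ 1)
    (h : ok j η t) : fr j (t + (a * dl (j-1) η t + dl j η t + b * dl (j+1) η t)) := by
  by_cases h1 : dl (j-1) η t = 0
  · by_cases h2 : dl (j+1) η t = 0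
    · rw [h1, h2, mul_zero, mul_zero, zero_add, add_zero]; exact push h
    · have h3 : dl j η t = 0 := dl_fr (sep2 (dl_ne' h2))
      rw [h1, h3, mul_zero, zero_add, zero_add]
      exact sep2 (dl_ne h2 hb hb')
  · have h3 := dl_ne' h1
    have h4 : dl j η t = 0 := by
      have := sep1 h3; rw [sub_add_cancel] at this; exact dl_fr this
    have h5 : dl (j+1) η t = 0 := by
      have := sep3 h3; rw [show j - 1 + 2 = j + 1 by ring] at this; exact dl_fr this
    rw [h4, h5, mul_zero, add_zero, add_zero]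
    have := sep1 (dl_ne h1 ha ha')
    rwa [sub_add_cancel] at this

theorem case2 {j : ℤ} {η t : ℝ} (h : ok j η t) (h' : ok (j+1) η t) :
    fr j (t + (dl j η t + dl (j+1) η t)) ∧ fr (j+1) (t + (dl j η t + dl (j+1) η t)) := by
  by_cases h1 : dl j η t = 0
  · constructor
    · by_cases h2 : dl (j+1) η t = 0
      · have := push h; rw [h2, add_zero]; exact this
      · rw [h1, zero_add]
        have := dl_ne h2 zero_le_one le_rfl
        rw [one_mul] at this
        exact sep2 this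
    · rw [h1, zero_add]; exact push h'
  · have h2 : dl (j+1) η t = 0 := dl_fr (sep1 (dl_ne' h1))
    rw [h2, add_zero]
    have := dl_ne h1 zero_le_one le_rfl
    rw [one_mul] at this
    exact ⟨push h, sep1 this⟩

section
variable {S : Type} [MetricSpace S] {m : ℕ}

theorem KK_val {p : S} {F : (Fin m → ℝ) → ℝ → S} (hF : Supp p F) {L η : ℝ} {j : ℤ}
    (h1 : (j:ℝ) ≤ L) (h2 : L ≤ j + 1) (hη : η ≤ j) (x : Fin m → ℝ)
    (hx : ∀ i, ok j η (x i) ∧ ok (j+1) η (x i)) : KK F L x η = p := by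
  unfold KK
  rcases le_total (L - j) (1/2) with h3 | h3
  · have e : max η (hh L) = j := by
      rw [hh_eq h1 h2, max_eq_left (by linarith : 2 * (L - j) - 1 ≤ (0:ℝ)), add_zero, max_eq_right hη]
    rw [e]
    apply hF.slice
    intro i
    have : fr j (Mp L η x i) := by
      rw [Mp_eq h1 h2, al_one (w := L - j) (by linarith) (by linarith), one_mul]
      exact case1 (al_nonneg _) (al_le_one _) (al_nonneg _) (al_le_one _) (hx i).1
    exact this
  · have e1 : hh L = j + (2 * (L - j) - 1) := by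
      rw [hh_eq h1 h2, max_eq_right (by linarith : (0:ℝ) ≤ 2 * (L - j) - 1)]
    have e : max η (hh L) = hh L := max_eq_right (by rw [e1]; linarith)
    rw [e]
    have key : ∀ i, fr j (Mp L η x i) ∧ fr (j+1) (Mp L η x i) := by
      intro i
      rw [Mp_eq h1 h2, al_one (w := L - j) (by linarith) (by linarith), one_mul,
        al_zero (w := L - (j-1)) (by right; linarith),
        al_one (w := L - (j+1)) (by linarith) (by linarith), one_mul, zero_mul, zero_add]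
      exact case2 (hx i).1 (hx i).2
    apply hF.slab j _ _ (by rw [e1]; linarith) (by rw [e1]; linarith)
    · intro i; exact (key i).1
    · intro i; exact (key i).2

end

end Pool.Agent.H946R3.LN
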