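import Mathlib
import Pool.Agent.H261R3.LN.SStmts
import Pool.Agent.H946R3.LN.SwC
import Pool.Agent.H946R3.LN.SwD

/-! Project LM, task Sweep: the variation bound and the end of the proof. -/

set_option autoImplicit false

open Pool.Agent.H261R3.LH (Lip1 clip clip_nonneg)
open Pool.Agent.H261R3.LN (HL Supp Far TaskSweep)

namespace Pool.Agent.H946R3.LN

theorem clip_mono : Monotone clip := by
  intro a b h
  unfold clip
  exact max_le_max le_rfl (min_le_min le_rfl h)

theorem clip_id {x : ℝ} (h : 0 ≤ x) (h' : x ≤ 1) : clip x = x := by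
  unfold clip
  rw [min_eq_right h', max_eq_right h]

/-- walls of different levels are separated -/
theorem wsepg {l l' : ℤ} (h : l < l') (n n' : ℤ) :
    (2:ℝ) ^ l / 6 ≤ |(2:ℝ) ^ l * (n + 1/6) - 2 ^ l' * (n' + 1/6)| := by
  have h2 : (0:ℝ) < 2 ^ l := by positivity
  obtain ⟨r, hr⟩ : ∃ r : ℕ, l' = l + (r + 1) := ⟨(l' - l - 1).toNat, by omega⟩
  have e : (2:ℝ) ^ l * (n + 1/6) - 2 ^ l' * (n' + 1/6) =
      2 ^ l * (((6 * n + 1 - 2 * 2 ^ r * (6 * n' + 1) : ℤ) : ℝ) / 6) := by
    have : (2:ℝ) ^ l' = 2 ^ l * (2 * 2 ^ r) := by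
      rw [hr, zpow_add₀ (by norm_num)]
      congr 1
      rw [zpow_add₀ (by norm_num), zpow_natCast, zpow_one]; ring
    rw [this]; push_cast; ring
  rw [e, abs_mul, abs_of_pos h2, abs_div, abs_of_pos (by norm_num : (0:ℝ) < 6)]
  have h1 : (1:ℝ) ≤ |((6 * n + 1 - 2 * 2 ^ r * (6 * n' + 1) : ℤ) : ℝ)| := by
    have hne : (6 * n + 1 - 2 * 2 ^ r * (6 * n' + 1) : ℤ) ≠ 0 := by
      intro h0
      have h3 : 6 * n + 1 = 2 * (2 ^ r * (6 * n' + 1)) := by linarith
      omega
    have := Int.one_le_abs hne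
    exact_mod_cast this
  calc (2:ℝ) ^ l / 6 = 2 ^ l * (1 / 6) := by ring
    _ ≤ _ := mul_le_mul_of_nonneg_left (by linarith) h2.le

theorem nok {l : ℤ} {η t : ℝ} (h : ¬ ok l η t) :
    ∃ n : ℤ, |t - (2:ℝ) ^ l * (n + 1/6)| < (2:ℝ) ^ η / 50 := by
  unfold ok at h
  push Not at h
  obtain ⟨n, hn⟩ := h
  refine ⟨n, ?_⟩
  have h1 : (2:ℝ) ^ ((l:ℝ) - 1 - η) ≤ kap l η := le_max_right _ _
  have h0 : 0 < (2:ℝ) ^ ((l:ℝ) - 1 - η) := by positivity
  have h2 : (2:ℝ) ^ ((l:ℝ) - 1 - η) * |t - (2:ℝ) ^ l * (n + 1/6)| < 2 ^ l / 100 :=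
    lt_of_le_of_lt (mul_le_mul_of_nonneg_right h1 (abs_nonneg _)) hn
  have h3 : (2:ℝ) ^ ((l:ℝ) - 1 - η) * ((2:ℝ) ^ η / 50) = 2 ^ l / 100 := by
    have : (2:ℝ) ^ ((l:ℝ) - 1 - η) * (2:ℝ) ^ η = 2 ^ l / 2 := by
      rw [← Real.rpow_add (by norm_num), show (l:ℝ) - 1 - η + η = l - 1 by ring,
        Real.rpow_sub (by norm_num), Real.rpow_intCast, Real.rpow_one]
    calc (2:ℝ) ^ ((l:ℝ) - 1 - η) * ((2:ℝ) ^ η / 50) =
        ((2:ℝ) ^ ((l:ℝ) - 1 - η) * (2:ℝ) ^ η) / 50 := by ring
      _ = _ := by rw [this]; ring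
  rw [← h3] at h2
  exact lt_of_mul_lt_mul_left h2 h0.le

theorem nok_uniq {l l' : ℤ} {η t : ℝ} (hl : η ≤ l) (hl' : η ≤ l') (h : ¬ ok l η t) (h' : ¬ ok l' η t) :
    l = l' := by
  by_contra hne
  have key : ∀ l l' : ℤ, η ≤ l → l < l' → ¬ ok l η t → ¬ ok l' η t → False := by
    intro l l' hl hlt h h'
    obtain ⟨n, hn⟩ := nok h
    obtain ⟨n', hn'⟩ := nok h'
    have h1 := wsepg hlt n n'
    have h3 := abs_sub_le ((2:ℝ) ^ l * (n + 1/6)) t (2 ^ l' * (n' + 1/6))
    rw [abs_sub_comm ((2:ℝ) ^ l * (n + 1/6)) t] at h3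
    have h4 : (2:ℝ) ^ η ≤ 2 ^ l := by
      rw [← Real.rpow_intCast]
      exact Real.rpow_le_rpow_of_exponent_le (by norm_num) hl
    have h5 : 0 < (2:ℝ) ^ η := by positivity
    linarith
  rcases lt_or_gt_of_ne hne with h1 | h1
  · exact key l l' hl h1 h h'
  · exact key l' l hl' h1 h' h

/-- variation through a monotone comparison function -/
theorem evar_le {S : Type} [MetricSpace S] (f : ℝ → S) (φ : ℝ → ℝ) (D : ℝ) (hmono : Monotone φ)
    (h0 : ∀ x, 0 ≤ φ x) (hD : ∀ x, φ x ≤ D)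
    (h : ∀ x y, x ≤ y → dist (f x) (f y) ≤ φ y - φ x) :
    eVariationOn f Set.univ ≤ ENNReal.ofReal D := by
  unfold eVariationOn
  refine iSup_le ?_
  rintro ⟨n, ⟨u, hu, _⟩⟩
  have h1 : ∀ i ∈ Finset.range n, edist (f (u (i+1))) (f (u i)) ≤
      ENNReal.ofReal (φ (u (i+1)) - φ (u i)) := by
    intro i _
    rw [edist_comm, edist_dist]
    exact ENNReal.ofReal_le_ofReal (h _ _ (hu (Nat.le_succ i)))
  refine (Finset.sum_le_sum h1).trans ?_
  rw [← ENNReal.ofReal_sum_of_nonneg]
  · rw [Finset.sum_range_sub (fun i => φ (u i))]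
    apply ENNReal.ofReal_le_ofReal
    linarith [h0 (u 0), hD (u n)]
  · intro i _
    linarith [hmono (hu (Nat.le_succ i))]

/-- local to global for a monotone comparison function -/
theorem glob {S : Type} [MetricSpace S] (f : ℝ → S) (φ : ℝ → ℝ)
    (h : ∀ (j : ℤ) (x y : ℝ), (j:ℝ) ≤ x → x ≤ y → y ≤ j + 1 → dist (f x) (f y) ≤ φ y - φ x) :
    ∀ x y, x ≤ y → dist (f x) (f y) ≤ φ y - φ x := by
  have key : ∀ (n : ℕ) (x y : ℝ), x ≤ y → y ≤ ⌊x⌋ + 1 + n → dist (f x) (f y) ≤ φ y - φ x := by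
    intro n
    induction n with
    | zero =>
      intro x y hxy hy
      exact h ⌊x⌋ x y (Int.floor_le x) hxy (by simpa using hy)
    | succ n ih =>
      intro x y hxy hy
      by_cases hy2 : y ≤ ⌊x⌋ + 1
      · exact ih x y hxy (by linarith [(Nat.cast_nonneg n : (0:ℝ) ≤ n)])
      · push Not at hy2
        have h1 := h ⌊x⌋ x (⌊x⌋ + 1) (Int.floor_le x) (Int.lt_floor_add_one x).le le_rfl
        have hfl : ⌊((⌊x⌋:ℝ) + 1)⌋ = ⌊x⌋ + 1 := by exact_mod_cast Int.floor_intCast (⌊x⌋ + 1)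
        have h2 := ih (⌊x⌋ + 1) y hy2.le (by rw [hfl]; push_cast at hy ⊢; linarith)
        have h3 := dist_triangle (f x) (f (⌊x⌋ + 1)) (f y)
        linarith
  intro x y hxy
  obtain ⟨n, hn⟩ := exists_nat_ge (y - (⌊x⌋ + 1))
  exact key n x y hxy (by linarith)

section
variable {S : Type} [MetricSpace S] {m : ℕ}

open scoped Classical in
theorem KK_var {C : ℝ} (hC : 0 ≤ C) {p : S} {F : (Fin m → ℝ) → ℝ → S} (hF : HL C F) (hS : Supp p F)
    (x : Fin m → ℝ) (η : ℝ) :
    eVariationOn (fun L => KK F L x η) Set.univ ≤ ENNReal.ofReal ((2 * m + 1) * (3 * C)) := by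
  have hLip := KK_Lip hC hF x η
  set k : ℝ → S := fun L => KK F L x η with hk
  set j0 := ⌊η⌋ with hj0
  -- the bad level of a coordinate
  let lv : Fin m → ℤ := fun i => if h : ∃ l : ℤ, j0 + 1 ≤ l ∧ ¬ ok l η (x i) then h.choose else j0
  have hlv : ∀ i l, j0 + 1 ≤ l → ¬ ok l η (x i) → l = lv i := by
    intro i l hl hn
    have hex : ∃ l : ℤ, j0 + 1 ≤ l ∧ ¬ ok l η (x i) := ⟨l, hl, hn⟩
    have e : lv i = hex.choose := dif_pos hex
    rw [e]
    have hge : ∀ l : ℤ, j0 + 1 ≤ l → η ≤ l := by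
      intro l hl
      have h1 := (Int.lt_floor_add_one η).le
      have h2 : ((j0 + 1 : ℤ) : ℝ) ≤ l := by exact_mod_cast hl
      push_cast at h2
      linarith
    exact nok_uniq (hge l hl) (hge _ hex.choose_spec.1) hn hex.choose_spec.2
  let B : Finset ℤ := insert j0 (Finset.univ.biUnion fun i : Fin m => {lv i, lv i - 1})
  have hcard : (B.card : ℝ) ≤ 2 * m + 1 := by
    have h1 : B.card ≤ (Finset.univ.biUnion fun i : Fin m => ({lv i, lv i - 1} : Finset ℤ)).card + 1 :=
      Finset.card_insert_le _ _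
    have h2 : (Finset.univ.biUnion fun i : Fin m => ({lv i, lv i - 1} : Finset ℤ)).card ≤ m * 2 := by
      have := Finset.card_biUnion_le_card_mul (Finset.univ : Finset (Fin m))
        (fun i => ({lv i, lv i - 1} : Finset ℤ)) 2 (fun i _ => Finset.card_le_two)
      simpa using this
    have h3 : B.card ≤ m * 2 + 1 := by omega
    have h4 : (B.card : ℝ) ≤ ((m * 2 + 1 : ℕ) : ℝ) := by exact_mod_cast h3
    push_cast at h4
    linarith
  let φ : ℝ → ℝ := fun L => 3 * C * ∑ j ∈ B, clip (L - j)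
  have hmono : Monotone φ := by
    intro a b hab
    apply mul_le_mul_of_nonneg_left _ (by positivity)
    apply Finset.sum_le_sum
    intro j _
    exact clip_mono (by linarith)
  have h0 : ∀ y, 0 ≤ φ y := fun y =>
    mul_nonneg (by positivity) (Finset.sum_nonneg fun j _ => clip_nonneg _)
  have hD : ∀ y, φ y ≤ (2 * m + 1) * (3 * C) := by
    intro y
    have h1 : ∑ j ∈ B, clip (y - j) ≤ B.card := by
      calc ∑ j ∈ B, clip (y - j) ≤ ∑ j ∈ B, (1:ℝ) := Finset.sum_le_sum fun j _ => clip_le_one _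
        _ = B.card := by simp
    have h2 : ∑ j ∈ B, clip (y - j) ≤ 2 * m + 1 := h1.trans hcard
    calc φ y = 3 * C * ∑ j ∈ B, clip (y - j) := rfl
      _ ≤ 3 * C * (2 * m + 1) := mul_le_mul_of_nonneg_left h2 (by positivity)
      _ = _ := by ring
  apply evar_le k φ _ hmono h0 hD
  apply glob
  intro j a b ha hab hb
  by_cases hj : j ∈ B
  · have h1 := hLip a b
    have h2 : b - a ≤ ∑ j ∈ B, clip (b - j) - ∑ j ∈ B, clip (a - j) := by
      rw [← Finset.sum_sub_distrib]
      have h3 : b - a = clip (b - j) - clip (a - j) := by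
        rw [clip_id (by linarith) (by linarith), clip_id (by linarith) (by linarith)]; ring
      rw [h3]
      apply Finset.single_le_sum (f := fun j : ℤ => clip (b - j) - clip (a - j)) _ hj
      intro i _
      have := clip_mono (show a - i ≤ b - i by linarith)
      linarith
    have h4 : |a - b| = b - a := by rw [abs_sub_comm, abs_of_nonneg (by linarith)]
    rw [h4] at h1
    calc dist (k a) (k b) ≤ 3 * C * (b - a) := h1
      _ ≤ 3 * C * (∑ j ∈ B, clip (b - j) - ∑ j ∈ B, clip (a - j)) :=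
          mul_le_mul_of_nonneg_left h2 (by positivity)
      _ = φ b - φ a := by simp only [φ]; ring
  · -- k is constant on [j, j+1]
    have hconst : k a = k b := by
      rcases lt_or_ge j j0 with h1 | h1
      · have h2 : (j:ℝ) + 1 ≤ j0 := by exact_mod_cast h1
        have h3 : (j0:ℝ) ≤ η := Int.floor_le η
        have ea : k a = F x η := KK_eq F (by linarith) x
        have eb : k b = F x η := KK_eq F (by linarith) x
        rw [ea, eb]
      · have hne : j ≠ j0 := by
          intro h; apply hj; rw [h]; exact Finset.mem_insert_self _ _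
        have h2 : j0 + 1 ≤ j := by omega
        have hη : η ≤ j := by
          have h3 := (Int.lt_floor_add_one η).le
          have h4 : ((j0 + 1 : ℤ) : ℝ) ≤ j := by exact_mod_cast h2
          push_cast at h4
          linarith
        have hok : ∀ i, ok j η (x i) ∧ ok (j+1) η (x i) := by
          intro i
          constructor
          · by_contra hn
            apply hj
            have := hlv i j h2 hn
            apply Finset.mem_insert_of_mem
            rw [Finset.mem_biUnion]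
            exact ⟨i, Finset.mem_univ _, by rw [this]; simp⟩
          · by_contra hn
            apply hj
            have := hlv i (j+1) (by omega) hn
            apply Finset.mem_insert_of_mem
            rw [Finset.mem_biUnion]
            refine ⟨i, Finset.mem_univ _, ?_⟩
            have e : j = lv i - 1 := by omega
            rw [Finset.mem_insert, Finset.mem_singleton]
            right; exact e
        have ea : k a = p := KK_val hS ha (by linarith) hη x hok
        have eb : k b = p := KK_val hS (by linarith) hb hη x hok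
        rw [ea, eb]
    rw [hconst, dist_self]
    linarith [hmono hab]

theorem int_sixth' (n : ℤ) : (1:ℝ)/6 ≤ |(n:ℝ) + 1/6| := by
  have := int_sixth (-n)
  push_cast at this
  rw [show -(n:ℝ) - 1/6 = -((n:ℝ) + 1/6) by ring, abs_neg] at this
  exact this

theorem ok_large {l : ℤ} {η t X : ℝ} (hX : |t| ≤ X) (hl : 7 * X ≤ 2 ^ l) : ok l η t := by
  intro n
  have h2 : (0:ℝ) < 2 ^ l := by positivity
  have h1 := int_sixth' n
  have h3 : (2:ℝ) ^ l / 6 ≤ |(2:ℝ) ^ l * (n + 1/6)| := by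
    rw [abs_mul, abs_of_pos h2]
    calc (2:ℝ) ^ l / 6 = 2 ^ l * (1/6) := by ring
      _ ≤ _ := mul_le_mul_of_nonneg_left h1 h2.le
  have h4 := abs_sub_abs_le_abs_sub ((2:ℝ) ^ l * (n + 1/6)) t
  rw [abs_sub_comm] at h4
  have h5 : (2:ℝ) ^ l / 100 ≤ |t - 2 ^ l * (n + 1/6)| := by linarith
  have h6 := kap_one l η
  have h7 := abs_nonneg (t - 2 ^ l * ((n:ℝ) + 1/6))
  nlinarith

theorem int_le_two_pow (j : ℤ) : (j:ℝ) ≤ 2 ^ j := by
  rcases le_or_gt 0 j with h | h
  · obtain ⟨n, rfl⟩ := Int.eq_ofNat_of_zero_le h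
    rw [zpow_natCast]
    have : n < 2 ^ n := Nat.lt_two_pow_self
    have : (n:ℝ) ≤ 2 ^ n := by exact_mod_cast this.le
    exact_mod_cast this
  · have : (j:ℝ) ≤ 0 := by exact_mod_cast h.le
    have : (0:ℝ) < 2 ^ j := by positivity
    linarith

end

theorem taskSweep : TaskSweep := by
  intro S _ p m C hC
  refine ⟨(6 * m + 7) * C, by positivity, ?_⟩
  intro F hF hS
  have hm : (0:ℝ) ≤ m := Nat.cast_nonneg m
  have hmC : 0 ≤ (m:ℝ) * C := mul_nonneg hm hC
  refine ⟨KK F, ?_, ?_, ?_, ?_, ?_⟩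
  · intro L
    have h := KK_HL hC hF L
    constructor
    · intro η x x'
      refine (h.1 η x x').trans ?_
      apply mul_le_mul_of_nonneg_right _ dist_nonneg
      apply mul_le_mul_of_nonneg_right _ (by positivity)
      nlinarith
    · intro x η η'
      refine (h.2 x η η').trans ?_
      apply mul_le_mul_of_nonneg_right _ (abs_nonneg _)
      nlinarith
  · intro x η L L'
    refine (KK_Lip hC hF x η L L').trans ?_
    apply mul_le_mul_of_nonneg_right _ (abs_nonneg _)
    nlinarith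
  · intro x η L h
    exact KK_eq F h x
  · intro X
    refine ⟨7 * |X| + 2, ?_⟩
    intro L hL x η hx hη
    have h1 := Int.floor_le L
    have h2 := (Int.lt_floor_add_one L).le
    set j := ⌊L⌋ with hj
    have h3 : 7 * |X| + 1 ≤ j := by linarith
    have h4 : X ≤ |X| := le_abs_self X
    have h4' := abs_nonneg X
    have h5 := int_le_two_pow j
    have h6 := int_le_two_pow (j+1)
    push_cast at h6
    apply KK_val hS h1 h2 (by linarith) x
    intro i
    have hxi : |x i| ≤ |X| := (hx i).trans h4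
    exact ⟨ok_large hxi (by linarith), ok_large hxi (by linarith)⟩
  · intro x η
    refine (KK_var hC hF hS x η).trans ?_
    apply ENNReal.ofReal_le_ofReal
    nlinarith

end Pool.Agent.H946R3.LN
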